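import Pool.Agent.Work.MP_4dcfa0_pr.Interface

set_option autoImplicit false

namespace Pool.Agent.Work.MP_4dcfa0_pr

theorem p_D : S_D := by
  intro q hq h8 w t hdvd
  haveI : Fact q.Prime := ⟨hq⟩
  have hqZ : Prime (q : ℤ) := Nat.prime_iff_prime_int.1 hq
  have hq2 : q ≠ 2 := by omega
  have hz : ((w : ZMod q)) ^ 2 - 2 * (t : ZMod q) ^ 2 = 0 := by
    have := (ZMod.intCast_zmod_eq_zero_iff_dvd (w ^ 2 - 2 * t ^ 2) q).2 hdvd
    push_cast at this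
    exact this
  have ht : (q : ℤ) ∣ t := by
    by_contra hnt
    have ht0 : (t : ZMod q) ≠ 0 := fun h =>
      hnt ((ZMod.intCast_zmod_eq_zero_iff_dvd t q).1 h)
    have hsq : IsSquare (2 : ZMod q) := by
      refine ⟨(w : ZMod q) / t, ?_⟩
      have h1 : (w : ZMod q) ^ 2 = 2 * (t : ZMod q) ^ 2 := by linear_combination hz
      rw [div_mul_div_comm, ← pow_two, ← pow_two, h1]
      field_simp
    have := (ZMod.exists_sq_eq_two_iff hq2).1 hsq
    omega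
  have hw2 : (q : ℤ) ∣ w ^ 2 := by
    have h1 : (q : ℤ) ∣ 2 * t ^ 2 := Dvd.dvd.mul_left (dvd_pow ht two_ne_zero) 2
    have h2 : w ^ 2 = (w ^ 2 - 2 * t ^ 2) + 2 * t ^ 2 := by ring
    rw [h2]
    exact dvd_add hdvd h1
  exact ⟨hqZ.dvd_of_dvd_pow hw2, ht⟩

theorem p_E : S_E := by
  intro q hq h8
  haveI : Fact q.Prime := ⟨hq⟩
  have hq0 : (q : ℤ) ≠ 0 := by exact_mod_cast hq.ne_zero
  suffices H : ∀ n : ℕ, ∀ w t : ℤ, (w ^ 2 - 2 * t ^ 2).natAbs ≤ n → w ^ 2 - 2 * t ^ 2 ≠ 0 →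
      Even (padicValInt q (w ^ 2 - 2 * t ^ 2)) from
    fun w t h => H _ w t le_rfl h
  intro n
  induction n with
  | zero =>
    intro w t h1 h2
    exact absurd (Int.natAbs_eq_zero.1 (Nat.le_zero.1 h1)) h2
  | succ n ih =>
    intro w t h1 h2
    by_cases hd : (q : ℤ) ∣ w ^ 2 - 2 * t ^ 2
    · obtain ⟨⟨w', hw⟩, ⟨t', ht⟩⟩ := p_D q hq h8 w t hd
      have he : w ^ 2 - 2 * t ^ 2 = (q : ℤ) * q * (w' ^ 2 - 2 * t' ^ 2) := by rw [hw, ht]; ring
      have h3 : w' ^ 2 - 2 * t' ^ 2 ≠ 0 := fun h => h2 (by rw [he, h, mul_zero])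
      have h4 : (w' ^ 2 - 2 * t' ^ 2).natAbs ≤ n := by
        have h5 : (w ^ 2 - 2 * t ^ 2).natAbs = q * q * (w' ^ 2 - 2 * t' ^ 2).natAbs := by
          rw [he, Int.natAbs_mul, Int.natAbs_mul, Int.natAbs_natCast]
        have h6 : 0 < (w' ^ 2 - 2 * t' ^ 2).natAbs := Int.natAbs_pos.2 h3
        have h7 : 2 ≤ q := hq.two_le
        have h8 : 2 * (w' ^ 2 - 2 * t' ^ 2).natAbs ≤ q * q * (w' ^ 2 - 2 * t' ^ 2).natAbs :=
          Nat.mul_le_mul_right _ (by nlinarith)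
        omega
      have h5 := ih w' t' h4 h3
      rw [he, padicValInt.mul (mul_ne_zero hq0 hq0) h3, padicValInt.mul hq0 hq0,
        padicValInt.self hq.one_lt]
      exact (by decide : Even (1 + 1)).add h5
    · rw [padicValInt.eq_zero_of_not_dvd hd]
      exact Even.zero

end Pool.Agent.Work.MP_4dcfa0_pr
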