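import Pool.Agent.Work.MP_4dcfa0_pr.Interface

set_option autoImplicit false

namespace Pool.Agent.Work.MP_4dcfa0_pr

theorem p_G : S_G := by
  intro q hq h4 w t hdvd
  haveI : Fact q.Prime := ⟨hq⟩
  have hqZ : Prime (q : ℤ) := Nat.prime_iff_prime_int.1 hq
  have hz : ((w : ZMod q)) ^ 2 + (t : ZMod q) ^ 2 = 0 := by
    have := (ZMod.intCast_zmod_eq_zero_iff_dvd (w ^ 2 + t ^ 2) q).2 hdvd
    push_cast at this
    exact this
  have ht : (q : ℤ) ∣ t := by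
    by_contra hnt
    have ht0 : (t : ZMod q) ≠ 0 := fun h =>
      hnt ((ZMod.intCast_zmod_eq_zero_iff_dvd t q).1 h)
    have hsq : IsSquare (-1 : ZMod q) := by
      refine ⟨(w : ZMod q) / t, ?_⟩
      have h1 : (w : ZMod q) ^ 2 = - (t : ZMod q) ^ 2 := by linear_combination hz
      rw [div_mul_div_comm, ← pow_two, ← pow_two, h1]
      field_simp
    exact (ZMod.exists_sq_eq_neg_one_iff.1 hsq) h4
  have hw2 : (q : ℤ) ∣ w ^ 2 := by
    have h1 : (q : ℤ) ∣ t ^ 2 := dvd_pow ht two_ne_zero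
    have h2 : w ^ 2 = (w ^ 2 + t ^ 2) - t ^ 2 := by ring
    rw [h2]
    exact dvd_sub hdvd h1
  exact ⟨hqZ.dvd_of_dvd_pow hw2, ht⟩

end Pool.Agent.Work.MP_4dcfa0_pr
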