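import Pool.Agent.Work.MP_4dcfa0_pr.Interface

/-!
# MP_4dcfa0_nt: block Q30, helper29
-/

set_option autoImplicit false

namespace Pool.Agent.Work.MP_4dcfa0_pr

namespace BQ30

theorem s15 : IsSquare ((1 : ℕ) : ZMod 5) := by decide
theorem s45 : IsSquare ((4 : ℕ) : ZMod 5) := by decide
theorem s13 : IsSquare ((1 : ℕ) : ZMod 3) := by decide
theorem n23 : ¬ IsSquare ((2 : ℕ) : ZMod 3) := by decide

theorem sq5 (p : ℕ) [Fact p.Prime] (h2 : p ≠ 2) (h : p % 5 = 1 ∨ p % 5 = 4) :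
    IsSquare (5 : ZMod p) := by
  haveI : Fact (Nat.Prime 5) := ⟨by norm_num⟩
  have h5 := ZMod.exists_sq_eq_prime_iff_of_mod_four_eq_one (p := 5) (q := p) (by norm_num) h2
  have h6 : IsSquare ((p : ℕ) : ZMod 5) := by
    have e : ((p : ℕ) : ZMod 5) = ((p % 5 : ℕ) : ZMod 5) := (ZMod.natCast_mod p 5).symm
    rw [e]
    rcases h with h | h <;> rw [h]
    · exact s15
    · exact s45
  have h7 : IsSquare ((5 : ℕ) : ZMod p) := h5.1 h6
  exact_mod_cast h7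

theorem sq3_1 (p : ℕ) [Fact p.Prime] (h4 : p % 4 = 1) (h : p % 3 = 1) :
    IsSquare (3 : ZMod p) := by
  haveI : Fact (Nat.Prime 3) := ⟨by norm_num⟩
  have h5 := ZMod.exists_sq_eq_prime_iff_of_mod_four_eq_one (p := p) (q := 3) h4 (by norm_num)
  have h6 : IsSquare ((p : ℕ) : ZMod 3) := by
    have e : ((p : ℕ) : ZMod 3) = ((p % 3 : ℕ) : ZMod 3) := (ZMod.natCast_mod p 3).symm
    rw [e, h]
    exact s13
  have h7 : IsSquare ((3 : ℕ) : ZMod p) := h5.2 h6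
  exact_mod_cast h7

theorem sq3_3 (p : ℕ) [Fact p.Prime] (h4 : p % 4 = 3) (h : p % 3 = 2) :
    IsSquare (3 : ZMod p) := by
  haveI : Fact (Nat.Prime 3) := ⟨by norm_num⟩
  have hne : p ≠ 3 := by
    rintro rfl
    omega
  have h5 := ZMod.exists_sq_eq_prime_iff_of_mod_four_eq_three (p := p) (q := 3) h4 (by norm_num) hne
  have h6 : ¬ IsSquare ((p : ℕ) : ZMod 3) := by
    have e : ((p : ℕ) : ZMod 3) = ((p % 3 : ℕ) : ZMod 3) := (ZMod.natCast_mod p 3).symm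
    rw [e, h]
    exact n23
  have h7 : IsSquare ((3 : ℕ) : ZMod p) := h5.2 h6
  exact_mod_cast h7

end BQ30

theorem p_Q30 : S_Q30 := by
  intro p hp h8 h5
  haveI : Fact p.Prime := ⟨hp⟩
  have hp2 : p ≠ 2 := by
    rintro rfl
    omega
  have h2 : IsSquare (2 : ZMod p) := by
    rw [ZMod.exists_sq_eq_two_iff hp2]
    rcases h8 with h | h
    · exact Or.inl h.1
    · exact Or.inr h.1
  have h3 : IsSquare (3 : ZMod p) := by
    rcases h8 with h | h
    · exact BQ30.sq3_1 p (by omega) h.2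
    · exact BQ30.sq3_3 p (by omega) h.2
  have h55 := BQ30.sq5 p hp2 h5
  obtain ⟨x, hx⟩ := (h2.mul h3).mul h55
  refine ⟨(x.val : ℤ), ?_⟩
  rw [← ZMod.intCast_zmod_eq_zero_iff_dvd]
  push_cast
  rw [ZMod.natCast_val, ZMod.cast_id]
  have : (2 : ZMod p) * 3 * 5 = 30 := by norm_num
  rw [this] at hx
  rw [hx]
  ring

end Pool.Agent.Work.MP_4dcfa0_pr
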