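import Pool.Agent.Work.MP_4dcfa0_pr.Interface

/-!
# MP_4dcfa0_nt: block Q42, helper29
-/

set_option autoImplicit false

namespace Pool.Agent.Work.MP_4dcfa0_pr

namespace BQ42

theorem s13 : IsSquare ((1 : ℕ) : ZMod 3) := by decide
theorem n23 : ¬ IsSquare ((2 : ℕ) : ZMod 3) := by decide
theorem s17 : IsSquare ((1 : ℕ) : ZMod 7) := by decide
theorem s27 : IsSquare ((2 : ℕ) : ZMod 7) := by decide
theorem s47 : IsSquare ((4 : ℕ) : ZMod 7) := by decide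
theorem n37 : ¬ IsSquare ((3 : ℕ) : ZMod 7) := by decide
theorem n57 : ¬ IsSquare ((5 : ℕ) : ZMod 7) := by decide
theorem n67 : ¬ IsSquare ((6 : ℕ) : ZMod 7) := by decide

/-- `p ≡ 1 mod 4`: `3` is no square if `p ≡ 2 mod 3` -/
theorem ns3_1 (p : ℕ) [Fact p.Prime] (h4 : p % 4 = 1) (h : p % 3 = 2) :
    ¬ IsSquare (3 : ZMod p) := by
  haveI : Fact (Nat.Prime 3) := ⟨by norm_num⟩
  have h5 := ZMod.exists_sq_eq_prime_iff_of_mod_four_eq_one (p := p) (q := 3) h4 (by norm_num)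
  have h6 : ¬ IsSquare ((p : ℕ) : ZMod 3) := by
    have e : ((p : ℕ) : ZMod 3) = ((p % 3 : ℕ) : ZMod 3) := (ZMod.natCast_mod p 3).symm
    rw [e, h]
    exact n23
  intro h7
  refine h6 (h5.1 ?_)
  exact_mod_cast h7

theorem ns3_3 (p : ℕ) [Fact p.Prime] (h4 : p % 4 = 3) (h : p % 3 = 1) :
    ¬ IsSquare (3 : ZMod p) := by
  haveI : Fact (Nat.Prime 3) := ⟨by norm_num⟩
  have hne : p ≠ 3 := by
    rintro rfl
    omega
  have h5 := ZMod.exists_sq_eq_prime_iff_of_mod_four_eq_three (p := p) (q := 3) h4 (by norm_num) hne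
  have h6 : IsSquare ((p : ℕ) : ZMod 3) := by
    have e : ((p : ℕ) : ZMod 3) = ((p % 3 : ℕ) : ZMod 3) := (ZMod.natCast_mod p 3).symm
    rw [e, h]
    exact s13
  intro h7
  have h8 : IsSquare ((3 : ℕ) : ZMod p) := by exact_mod_cast h7
  exact (h5.1 h8) h6

theorem ns7_1 (p : ℕ) [Fact p.Prime] (h4 : p % 4 = 1) (h : p % 7 = 3 ∨ p % 7 = 5 ∨ p % 7 = 6) :
    ¬ IsSquare (7 : ZMod p) := by
  haveI : Fact (Nat.Prime 7) := ⟨by norm_num⟩
  have h5 := ZMod.exists_sq_eq_prime_iff_of_mod_four_eq_one (p := p) (q := 7) h4 (by norm_num)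
  have h6 : ¬ IsSquare ((p : ℕ) : ZMod 7) := by
    have e : ((p : ℕ) : ZMod 7) = ((p % 7 : ℕ) : ZMod 7) := (ZMod.natCast_mod p 7).symm
    rw [e]
    rcases h with h | h | h <;> rw [h]
    · exact n37
    · exact n57
    · exact n67
  intro h7
  refine h6 (h5.1 ?_)
  exact_mod_cast h7

theorem ns7_3 (p : ℕ) [Fact p.Prime] (h4 : p % 4 = 3) (h : p % 7 = 1 ∨ p % 7 = 2 ∨ p % 7 = 4) :
    ¬ IsSquare (7 : ZMod p) := by
  haveI : Fact (Nat.Prime 7) := ⟨by norm_num⟩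
  have hne : p ≠ 7 := by
    rintro rfl
    omega
  have h5 := ZMod.exists_sq_eq_prime_iff_of_mod_four_eq_three (p := p) (q := 7) h4 (by norm_num) hne
  have h6 : IsSquare ((p : ℕ) : ZMod 7) := by
    have e : ((p : ℕ) : ZMod 7) = ((p % 7 : ℕ) : ZMod 7) := (ZMod.natCast_mod p 7).symm
    rw [e]
    rcases h with h | h | h <;> rw [h]
    · exact s17
    · exact s27
    · exact s47
  intro h7
  have h8 : IsSquare ((7 : ℕ) : ZMod p) := by exact_mod_cast h7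
  exact (h5.1 h8) h6

theorem mul_ns {p : ℕ} [Fact p.Prime] (hp2 : p ≠ 2) {a b : ZMod p} (ha : ¬ IsSquare a)
    (hb : ¬ IsSquare b) : IsSquare (a * b) := by
  have hch : ringChar (ZMod p) ≠ 2 := by rw [ZMod.ringChar_zmod_n]; exact hp2
  have ha0 : a ≠ 0 := by
    rintro rfl
    exact ha ⟨0, by simp⟩
  have hb0 : b ≠ 0 := by
    rintro rfl
    exact hb ⟨0, by simp⟩
  have h1 := (quadraticChar_neg_one_iff_not_isSquare (F := ZMod p) (a := a)).2 ha
  have h2 := (quadraticChar_neg_one_iff_not_isSquare (F := ZMod p) (a := b)).2 hb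
  rw [← quadraticChar_one_iff_isSquare (mul_ne_zero ha0 hb0), map_mul, h1, h2]
  norm_num

end BQ42

theorem p_Q42 : S_Q42 := by
  intro p hp h8
  haveI : Fact p.Prime := ⟨hp⟩
  have hp2 : p ≠ 2 := by
    rintro rfl
    omega
  have h2 : IsSquare (2 : ZMod p) := by
    rw [ZMod.exists_sq_eq_two_iff hp2]
    rcases h8 with h | h
    · exact Or.inl h.1
    · exact Or.inr h.1
  have h37 : IsSquare ((3 : ZMod p) * 7) := by
    rcases h8 with ⟨h, h3, h7⟩ | ⟨h, h3, h7⟩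
    · exact BQ42.mul_ns hp2 (BQ42.ns3_1 p (by omega) h3) (BQ42.ns7_1 p (by omega) h7)
    · exact BQ42.mul_ns hp2 (BQ42.ns3_3 p (by omega) h3) (BQ42.ns7_3 p (by omega) h7)
  obtain ⟨x, hx⟩ := h2.mul h37
  refine ⟨(x.val : ℤ), ?_⟩
  rw [← ZMod.intCast_zmod_eq_zero_iff_dvd]
  push_cast
  rw [ZMod.natCast_val, ZMod.cast_id]
  have : (2 : ZMod p) * (3 * 7) = 42 := by norm_num
  rw [this] at hx
  rw [hx]
  ring

end Pool.Agent.Work.MP_4dcfa0_pr
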