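import Pool.Agent.Work.MP_4dcfa0_pr.RCommon

set_option autoImplicit false

/-! # Block R3 -/

namespace Pool.Agent.Work.MP_4dcfa0_pr

open RC

theorem p_R3 (hT : S_TH) (hQ : S_Q42) : S_R3 := by
  intro p hp h8 h3 h7
  obtain ⟨z, hz⟩ := hQ p hp (Or.inl ⟨h8, h3, h7⟩)
  obtain ⟨x, y, k, hk0, hk1, hk2, hk⟩ := thue hT p hp 6 (by norm_num) 7 z 42
    (fun n hn => by
      have h1 : n < 7 := by nlinarith
      have h2 : -7 < n := by nlinarith
      interval_cases n <;> omega) (by norm_num) (by norm_num) hz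
  exact lemB p x y k (by omega) (by omega) (by omega) hk0 hk1 (by push_cast at hk2; omega) hk

end Pool.Agent.Work.MP_4dcfa0_pr
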