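import Pool.Agent.Work.MP_4dcfa0_pr.Interface

/-!
# MP_4dcfa0_nt: block TH (Thue's lemma), helper29
-/

set_option autoImplicit false

namespace Pool.Agent.Work.MP_4dcfa0_pr

theorem p_TH : S_TH := by
  intro p a z hp ha
  obtain ⟨X, hX⟩ : ∃ X : ℕ, X = Nat.sqrt (a * p) := ⟨_, rfl⟩
  obtain ⟨Y, hY⟩ : ∃ Y : ℕ, Y = Nat.sqrt (p / a) := ⟨_, rfl⟩
  have hX1 : X * X ≤ a * p := by rw [hX]; exact Nat.sqrt_le _
  have hX2 : a * p < (X + 1) * (X + 1) := by rw [hX]; exact Nat.lt_succ_sqrt _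
  have hY1 : Y * Y ≤ p / a := by rw [hY]; exact Nat.sqrt_le _
  have hY2 : p / a < (Y + 1) * (Y + 1) := by rw [hY]; exact Nat.lt_succ_sqrt _
  have hY3 : a * (Y * Y) ≤ p := (Nat.mul_le_mul_left a hY1).trans (Nat.mul_div_le p a)
  have hY4 : p < a * ((Y + 1) * (Y + 1)) := by
    have := (Nat.div_lt_iff_lt_mul ha).1 hY2
    rw [mul_comm] at this
    exact this
  have hprod : p < (X + 1) * (Y + 1) := by
    by_contra hcon
    have h1 : ((X + 1) * (Y + 1)) * ((X + 1) * (Y + 1)) ≤ p * p :=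
      Nat.mul_le_mul (not_lt.1 hcon) (not_lt.1 hcon)
    have h2 : (a * p) * p < ((X + 1) * (X + 1)) * (a * ((Y + 1) * (Y + 1))) :=
      Nat.mul_lt_mul_of_lt_of_lt hX2 hY4
    have h3 : a * (p * p) < a * (((X + 1) * (Y + 1)) * ((X + 1) * (Y + 1))) := by
      calc a * (p * p) = (a * p) * p := by ring
        _ < ((X + 1) * (X + 1)) * (a * ((Y + 1) * (Y + 1))) := h2
        _ = _ := by ring
    have h4 := Nat.lt_of_mul_lt_mul_left h3
    omega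
  haveI : NeZero p := ⟨hp.ne'⟩
  let f : Fin (X + 1) × Fin (Y + 1) → ZMod p := fun q =>
    ((q.1 : ℕ) : ZMod p) - ((z : ℤ) : ZMod p) * ((q.2 : ℕ) : ZMod p)
  have hcard : Fintype.card (ZMod p) < Fintype.card (Fin (X + 1) × Fin (Y + 1)) := by
    rw [ZMod.card, Fintype.card_prod, Fintype.card_fin, Fintype.card_fin]
    exact hprod
  obtain ⟨q, r, hqr, hf⟩ := Fintype.exists_ne_map_eq_of_card_lt f hcard
  refine ⟨((q.1 : ℕ) : ℤ) - ((r.1 : ℕ) : ℤ), ((q.2 : ℕ) : ℤ) - ((r.2 : ℕ) : ℤ), ?_, ?_, ?_, ?_⟩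
  · by_contra hcon
    rw [not_or, not_not, not_not] at hcon
    refine hqr (Prod.ext (Fin.ext ?_) (Fin.ext ?_)) <;> omega
  · rw [← ZMod.intCast_zmod_eq_zero_iff_dvd]
    have h1 : ((q.1 : ℕ) : ZMod p) - ((z : ℤ) : ZMod p) * ((q.2 : ℕ) : ZMod p) =
      ((r.1 : ℕ) : ZMod p) - ((z : ℤ) : ZMod p) * ((r.2 : ℕ) : ZMod p) := hf
    push_cast
    linear_combination h1
  · have h1 : |((q.1 : ℕ) : ℤ) - ((r.1 : ℕ) : ℤ)| ≤ X := by
      have := q.1.2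
      have := r.1.2
      rw [abs_le]
      constructor <;> omega
    have h2 : (((q.1 : ℕ) : ℤ) - ((r.1 : ℕ) : ℤ)) ^ 2 ≤ (X : ℤ) * X := by
      rw [← sq_abs, sq]
      exact mul_self_le_mul_self (abs_nonneg _) h1
    exact h2.trans (by exact_mod_cast hX1)
  · have h1 : |((q.2 : ℕ) : ℤ) - ((r.2 : ℕ) : ℤ)| ≤ Y := by
      have := q.2.2
      have := r.2.2
      rw [abs_le]
      constructor <;> omega
    have h2 : (((q.2 : ℕ) : ℤ) - ((r.2 : ℕ) : ℤ)) ^ 2 ≤ (Y : ℤ) * Y := by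
      rw [← sq_abs, sq]
      exact mul_self_le_mul_self (abs_nonneg _) h1
    calc (a : ℤ) * (((q.2 : ℕ) : ℤ) - ((r.2 : ℕ) : ℤ)) ^ 2 ≤ a * ((Y : ℤ) * Y) :=
          mul_le_mul_of_nonneg_left h2 (by positivity)
      _ ≤ p := by exact_mod_cast hY3

end Pool.Agent.Work.MP_4dcfa0_pr
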