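import Pool.Agent.Work.MP_4dcfa0_pr.B_T
import Pool.Agent.Work.MP_4dcfa0_45.Main

set_option autoImplicit false

namespace Pool.Agent.Work.MP_4dcfa0_pr

/-- The integer solutions of `x ^ 4 + y ^ 4 - w ^ 2 = n`. -/
theorem inf_of_point (m x y w : ℤ) (hm : m ≠ 0) (h : x ^ 4 + y ^ 4 - w ^ 2 = m ^ 2)
    (hb : |m| < max (x ^ 2) (y ^ 2)) :
    {p : ℤ × ℤ × ℤ | p.1 ^ 4 + p.2.1 ^ 4 - p.2.2 ^ 2 = m ^ 2}.Infinite :=
  (Pool.Agent.Work.MP_4dcfa0_45.square_iff m hm).mpr ⟨x, y, w, h, hb⟩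

theorem sq_le_of_dvd (l : ℕ) (x : ℤ) (h : (l : ℤ) ∣ x) (hx : x ≠ 0) : (l : ℤ) ^ 2 ≤ x ^ 2 := by
  obtain ⟨k, rfl⟩ := h
  have hk : k ≠ 0 := by rintro rfl; simp at hx
  have h1 : 1 ≤ k ^ 2 := by
    have := sq_nonneg k
    have h2 : k ^ 2 ≠ 0 := pow_ne_zero 2 hk
    omega
  have h3 : 0 ≤ (l : ℤ) ^ 2 := sq_nonneg _
  nlinarith

theorem fin_A (hT : S_T) (m : ℤ) (hm : m % 8 = 3 ∨ m % 8 = 5)
    (hl : ∀ l : ℕ, l.Prime → l % 8 = 5 → Odd (padicValInt l m) → |m| < (l : ℤ) ^ 2) :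
    {p : ℤ × ℤ × ℤ | p.1 ^ 4 + p.2.1 ^ 4 - p.2.2 ^ 2 = m ^ 2} = ∅ ∨
    {p : ℤ × ℤ × ℤ | p.1 ^ 4 + p.2.1 ^ 4 - p.2.2 ^ 2 = m ^ 2}.Infinite := by
  rcases Set.eq_empty_or_nonempty
    {p : ℤ × ℤ × ℤ | p.1 ^ 4 + p.2.1 ^ 4 - p.2.2 ^ 2 = m ^ 2} with h | ⟨⟨x, y, w⟩, h⟩
  · exact Or.inl h
  right
  simp only [Set.mem_ofPred_eq] at h
  have hm0 : m ≠ 0 := by rintro rfl; simp at hm
  obtain ⟨l, hlp, hl5, hlx, hly, hlo⟩ := hT m x y w h hm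
  have hlm := hl l hlp hl5 hlo
  refine inf_of_point m x y w hm0 h ?_
  by_cases hx : x = 0
  · by_cases hy : y = 0
    · exfalso
      subst hx hy
      have h1 : 0 < m ^ 2 := by positivity
      nlinarith [sq_nonneg w]
    · exact lt_of_lt_of_le hlm (le_trans (sq_le_of_dvd l y hly hy) (le_max_right _ _))
  · exact lt_of_lt_of_le hlm (le_trans (sq_le_of_dvd l x hlx hx) (le_max_left _ _))

theorem prime_of_odd (p l : ℕ) (hp : p.Prime) (hl : l.Prime) (h : Odd (padicValInt l (p : ℤ))) :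
    l = p := by
  have h1 : (l : ℤ) ∣ (p : ℤ) := by
    by_contra hc
    rw [padicValInt.eq_zero_of_not_dvd hc] at h
    simp at h
  have h2 : l ∣ p := by exact_mod_cast h1
  exact (Nat.prime_dvd_prime_iff_eq hl hp).mp h2

theorem fin_2 : {p : ℤ × ℤ × ℤ | p.1 ^ 4 + p.2.1 ^ 4 - p.2.2 ^ 2 = ((2 : ℕ) : ℤ) ^ 2} = ∅ := by
  rw [Set.eq_empty_iff_forall_notMem]
  rintro ⟨x, y, w⟩ h
  simp only [Set.mem_ofPred_eq] at h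
  have h1 := T_four16 x
  have h2 := T_four16 y
  have h3 := T_sq16 w
  norm_num at h
  omega

theorem fin_3 (hT : S_T) (p : ℕ) (hp : p.Prime) (h3 : p % 8 = 3) :
    {q : ℤ × ℤ × ℤ | q.1 ^ 4 + q.2.1 ^ 4 - q.2.2 ^ 2 = (p : ℤ) ^ 2} = ∅ := by
  rw [Set.eq_empty_iff_forall_notMem]
  rintro ⟨x, y, w⟩ h
  simp only [Set.mem_ofPred_eq] at h
  obtain ⟨l, hlp, hl5, -, -, hlo⟩ := hT p x y w h (by omega)
  have := prime_of_odd p l hp hlp hlo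
  omega

theorem fin_5 (hT : S_T) (p : ℕ) (hp : p.Prime) (h5 : p % 8 = 5) :
    {q : ℤ × ℤ × ℤ | q.1 ^ 4 + q.2.1 ^ 4 - q.2.2 ^ 2 = (p : ℤ) ^ 2} = ∅ ∨
    {q : ℤ × ℤ × ℤ | q.1 ^ 4 + q.2.1 ^ 4 - q.2.2 ^ 2 = (p : ℤ) ^ 2}.Infinite := by
  refine fin_A hT p (by omega) ?_
  intro l hl _ hlo
  have := prime_of_odd p l hp hl hlo
  subst this
  have h2 : (2 : ℤ) ≤ (l : ℤ) := by exact_mod_cast hl.two_le
  rw [abs_of_nonneg (by omega)]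
  nlinarith

theorem fin_120 (a c : ℤ) (h : a ^ 2 - 120 * c ^ 2 ≠ 0) :
    {q : ℤ × ℤ × ℤ | q.1 ^ 4 + q.2.1 ^ 4 - q.2.2 ^ 2 = (a ^ 2 - 120 * c ^ 2) ^ 2}.Infinite := by
  refine inf_of_point _ (a + 16 * c) (2 * a + 15 * c) (4 * a ^ 2 + 68 * a * c + 319 * c ^ 2) h
    (by ring) ?_
  have key : 8 * (2 * a + 15 * c) ^ 2 - 15 * (a + 16 * c) ^ 2 = 17 * (a ^ 2 - 120 * c ^ 2) := by
    ring
  rw [lt_max_iff]
  rcases lt_or_gt_of_ne h with h0 | h0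
  · left
    rw [abs_of_neg h0]
    nlinarith [sq_nonneg (2 * a + 15 * c)]
  · right
    rw [abs_of_pos h0]
    nlinarith [sq_nonneg (a + 16 * c)]

theorem fin_168 (c x : ℤ) (h : 24 * c ^ 2 - 7 * x ^ 2 ≠ 0) :
    {q : ℤ × ℤ × ℤ | q.1 ^ 4 + q.2.1 ^ 4 - q.2.2 ^ 2 = (24 * c ^ 2 - 7 * x ^ 2) ^ 2}.Infinite := by
  refine inf_of_point _ (5 * x) (5 * c) (7 * c ^ 2 + 24 * x ^ 2) h (by ring) ?_
  rw [lt_max_iff]
  rcases lt_or_gt_of_ne h with h0 | h0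
  · left
    rw [abs_of_neg h0]
    nlinarith [sq_nonneg c, sq_nonneg x]
  · right
    rw [abs_of_pos h0]
    nlinarith [sq_nonneg c, sq_nonneg x]

theorem fin_B (h1 : S_R1) (h2 : S_R2) (h3 : S_R3) (h4 : S_R4) (p : ℕ) (hp : p.Prime)
    (h : p % 120 ∈ ({1, 49, 71, 119} : Finset ℕ) ∨
      p % 168 ∈ ({17, 41, 79, 89, 127, 151} : Finset ℕ)) :
    {q : ℤ × ℤ × ℤ | q.1 ^ 4 + q.2.1 ^ 4 - q.2.2 ^ 2 = (p : ℤ) ^ 2}.Infinite := by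
  have hp0 : (p : ℤ) ≠ 0 := by exact_mod_cast hp.ne_zero
  simp only [Finset.mem_insert, Finset.mem_singleton] at h
  have hc : (p % 8 = 1 ∧ p % 3 = 1 ∧ (p % 5 = 1 ∨ p % 5 = 4)) ∨
      (p % 8 = 7 ∧ p % 3 = 2 ∧ (p % 5 = 1 ∨ p % 5 = 4)) ∨
      (p % 8 = 1 ∧ p % 3 = 2 ∧ (p % 7 = 3 ∨ p % 7 = 5 ∨ p % 7 = 6)) ∨
      (p % 8 = 7 ∧ p % 3 = 1 ∧ (p % 7 = 1 ∨ p % 7 = 2 ∨ p % 7 = 4)) := by
    have e8 : p % 120 % 8 = p % 8 := Nat.mod_mod_of_dvd p (by norm_num)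
    have e3 : p % 120 % 3 = p % 3 := Nat.mod_mod_of_dvd p (by norm_num)
    have e5 : p % 120 % 5 = p % 5 := Nat.mod_mod_of_dvd p (by norm_num)
    have f8 : p % 168 % 8 = p % 8 := Nat.mod_mod_of_dvd p (by norm_num)
    have f3 : p % 168 % 3 = p % 3 := Nat.mod_mod_of_dvd p (by norm_num)
    have f7 : p % 168 % 7 = p % 7 := Nat.mod_mod_of_dvd p (by norm_num)
    rcases h with (h | h | h | h) | (h | h | h | h | h | h)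
    · rw [h] at e8 e3 e5; rw [← e8, ← e3, ← e5]; norm_num
    · rw [h] at e8 e3 e5; rw [← e8, ← e3, ← e5]; norm_num
    · rw [h] at e8 e3 e5; rw [← e8, ← e3, ← e5]; norm_num
    · rw [h] at e8 e3 e5; rw [← e8, ← e3, ← e5]; norm_num
    · rw [h] at f8 f3 f7; rw [← f8, ← f3, ← f7]; norm_num
    · rw [h] at f8 f3 f7; rw [← f8, ← f3, ← f7]; norm_num
    · rw [h] at f8 f3 f7; rw [← f8, ← f3, ← f7]; norm_num
    · rw [h] at f8 f3 f7; rw [← f8, ← f3, ← f7]; norm_num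
    · rw [h] at f8 f3 f7; rw [← f8, ← f3, ← f7]; norm_num
    · rw [h] at f8 f3 f7; rw [← f8, ← f3, ← f7]; norm_num
  rcases hc with ⟨a, b, c⟩ | ⟨a, b, c⟩ | ⟨a, b, c⟩ | ⟨a, b, c⟩
  · obtain ⟨u, v, huv⟩ := h1 p hp a b c
    rw [huv] at hp0 ⊢
    exact fin_120 u v hp0
  · obtain ⟨u, v, huv⟩ := h2 p hp a b c
    have e : (p : ℤ) ^ 2 = (u ^ 2 - 120 * v ^ 2) ^ 2 := by rw [← huv]; ring
    rw [e]
    exact fin_120 u v (by rw [← huv]; exact neg_ne_zero.mpr hp0)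
  · obtain ⟨u, v, huv⟩ := h3 p hp a b c
    rw [huv] at hp0 ⊢
    exact fin_168 u v hp0
  · obtain ⟨u, v, huv⟩ := h4 p hp a b c
    have e : (p : ℤ) ^ 2 = (24 * u ^ 2 - 7 * v ^ 2) ^ 2 := by rw [← huv]; ring
    rw [e]
    exact fin_168 u v (by rw [← huv]; exact neg_ne_zero.mpr hp0)

end Pool.Agent.Work.MP_4dcfa0_pr
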