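import Pool.Agent.Work.MP_4dcfa0_pr.Interface

set_option autoImplicit false

namespace Pool.Agent.Work.MP_4dcfa0_pr

theorem T_sq16 (w : ℤ) : w ^ 2 % 16 = 0 ∨ w ^ 2 % 16 = 1 ∨ w ^ 2 % 16 = 4 ∨ w ^ 2 % 16 = 9 := by
  have h : w % 16 = 0 ∨ w % 16 = 1 ∨ w % 16 = 2 ∨ w % 16 = 3 ∨ w % 16 = 4 ∨ w % 16 = 5 ∨
    w % 16 = 6 ∨ w % 16 = 7 ∨ w % 16 = 8 ∨ w % 16 = 9 ∨ w % 16 = 10 ∨ w % 16 = 11 ∨
    w % 16 = 12 ∨ w % 16 = 13 ∨ w % 16 = 14 ∨ w % 16 = 15 := by omega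
  rcases h with h | h | h | h | h | h | h | h | h | h | h | h | h | h | h | h <;>
    simp [pow_two, Int.mul_emod, h]

theorem T_four16 (x : ℤ) : (x % 2 = 0 ∧ x ^ 4 % 16 = 0) ∨ (x % 2 = 1 ∧ x ^ 4 % 16 = 1) := by
  rcases Int.even_or_odd x with ⟨k, hk⟩ | ⟨k, hk⟩
  · left
    refine ⟨by omega, ?_⟩
    have : x ^ 4 = 16 * k ^ 4 := by rw [hk]; ring
    omega
  · right
    refine ⟨by omega, ?_⟩
    obtain ⟨j, hj⟩ : ∃ j, k * (k + 1) = 2 * j := by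
      obtain ⟨j, hj⟩ := Int.even_mul_succ_self k
      exact ⟨j, by rw [hj]; ring⟩
    have h2 : x ^ 2 = 8 * j + 1 := by
      have : x ^ 2 = 4 * (k * (k + 1)) + 1 := by rw [hk]; ring
      rw [this, hj]; ring
    have : x ^ 4 = 16 * (4 * j ^ 2 + j) + 1 := by
      have : x ^ 4 = (x ^ 2) ^ 2 := by ring
      rw [this, h2]; ring
    omega

theorem T_odd (m x y w : ℤ) (h : x ^ 4 + y ^ 4 - w ^ 2 = m ^ 2) (hm : m % 8 = 3 ∨ m % 8 = 5) :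
    x % 2 = 1 ∧ y % 2 = 1 := by
  have h9 : m ^ 2 % 16 = 9 := by
    obtain ⟨k, hk⟩ : ∃ k, m = 8 * k + 3 ∨ m = 8 * k + 5 := ⟨m / 8, by omega⟩
    rcases hk with hk | hk
    · have : m ^ 2 = 16 * (4 * k ^ 2 + 3 * k) + 9 := by rw [hk]; ring
      omega
    · have : m ^ 2 = 16 * (4 * k ^ 2 + 5 * k + 1) + 9 := by rw [hk]; ring
      omega
  have h1 := T_four16 x
  have h2 := T_four16 y
  have h3 := T_sq16 w
  omega

theorem T_sq8 (x : ℤ) (h : x % 2 = 1) : x ^ 2 % 8 = 1 := by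
  obtain ⟨k, hk⟩ : ∃ k, x = 2 * k + 1 := ⟨x / 2, by omega⟩
  obtain ⟨j, hj⟩ := Int.even_mul_succ_self k
  have h2 : x ^ 2 = 8 * j + 1 := by
    have : x ^ 2 = 4 * (k * (k + 1)) + 1 := by rw [hk]; ring
    rw [this, hj]; ring
  omega

theorem p_T (hV : S_V) (hD : S_D) (hE : S_E) (hG : S_G) : S_T := by
  intro m
  induction hn : m.natAbs using Nat.strong_induction_on generalizing m with
  | _ n ih =>
  intro x y w h hm
  obtain ⟨hx, hy⟩ := T_odd m x y w h hm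
  have hx8 := T_sq8 x hx
  have hy8 := T_sq8 y hy
  have hz8 : (x ^ 2 - y ^ 2 + m) % 8 = 3 ∨ (x ^ 2 - y ^ 2 + m) % 8 = 5 := by omega
  have hz8' : (x ^ 2 - y ^ 2 - m) % 8 = 3 ∨ (x ^ 2 - y ^ 2 - m) % 8 = 5 := by omega
  have hz0 : x ^ 2 - y ^ 2 + m ≠ 0 := by intro h0; rw [h0] at hz8; simp at hz8
  have hz0' : x ^ 2 - y ^ 2 - m ≠ 0 := by intro h0; rw [h0] at hz8'; simp at hz8'
  have hm0 : m ≠ 0 := by rintro rfl; simp at hm
  obtain ⟨q, hq, hq8, hodd⟩ := hV (x ^ 2 - y ^ 2 + m).natAbs (by omega)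
  have : Fact q.Prime := ⟨hq⟩
  have hqp : Prime (q : ℤ) := Nat.prime_iff_prime_int.mp hq
  have hodd' : Odd (padicValInt q (x ^ 2 - y ^ 2 + m)) := hodd
  have hprod : (x ^ 2 - y ^ 2 + m) * (x ^ 2 - y ^ 2 - m) = w ^ 2 - 2 * (x * y) ^ 2 := by
    linear_combination h
  have hne : w ^ 2 - 2 * (x * y) ^ 2 ≠ 0 := by
    rw [← hprod]; exact mul_ne_zero hz0 hz0'
  have hev := hE q hq hq8 w (x * y) hne
  rw [← hprod, padicValInt.mul hz0 hz0'] at hev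
  have hodd2 : Odd (padicValInt q (x ^ 2 - y ^ 2 - m)) := by
    rcases hodd' with ⟨a, ha⟩
    rcases hev with ⟨b, hb⟩
    rw [← Nat.not_even_iff_odd]
    rintro ⟨c, hc⟩
    omega
  have hdvd : (q : ℤ) ∣ x ^ 2 - y ^ 2 + m := by
    by_contra hc
    rw [padicValInt.eq_zero_of_not_dvd hc] at hodd'
    simp at hodd'
  have hdvd' : (q : ℤ) ∣ x ^ 2 - y ^ 2 - m := by
    by_contra hc
    rw [padicValInt.eq_zero_of_not_dvd hc] at hodd2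
    simp at hodd2
  have hq2 : ¬ (q : ℤ) ∣ 2 := by
    intro hc
    have : q ∣ 2 := by exact_mod_cast hc
    have := Nat.le_of_dvd (by norm_num) this
    omega
  obtain ⟨hqw, hqt⟩ := hD q hq hq8 w (x * y) (by rw [← hprod]; exact Dvd.dvd.mul_right hdvd _)
  have hqm : (q : ℤ) ∣ m := by
    have : (q : ℤ) ∣ 2 * m := by
      have e : 2 * m = (x ^ 2 - y ^ 2 + m) - (x ^ 2 - y ^ 2 - m) := by ring
      rw [e]; exact dvd_sub hdvd hdvd'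
    exact (hqp.dvd_or_dvd this).resolve_left hq2
  have hqs : (q : ℤ) ∣ x ^ 2 - y ^ 2 := by
    have e : x ^ 2 - y ^ 2 = (x ^ 2 - y ^ 2 + m) - m := by ring
    rw [e]; exact dvd_sub hdvd hqm
  have hqxy : (q : ℤ) ∣ x ∧ (q : ℤ) ∣ y := by
    rcases hqp.dvd_or_dvd hqt with hc | hc
    · refine ⟨hc, ?_⟩
      have h1 : (q : ℤ) ∣ x ^ 2 := Dvd.dvd.pow hc (by norm_num)
      have h2 : (q : ℤ) ∣ y ^ 2 := by
        have e : y ^ 2 = x ^ 2 - (x ^ 2 - y ^ 2) := by ring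
        rw [e]; exact dvd_sub h1 hqs
      exact hqp.dvd_of_dvd_pow h2
    · refine ⟨?_, hc⟩
      have h1 : (q : ℤ) ∣ y ^ 2 := Dvd.dvd.pow hc (by norm_num)
      have h2 : (q : ℤ) ∣ x ^ 2 := by
        have e : x ^ 2 = y ^ 2 + (x ^ 2 - y ^ 2) := by ring
        rw [e]; exact dvd_add h1 hqs
      exact hqp.dvd_of_dvd_pow h2
  obtain ⟨hqx, hqy⟩ := hqxy
  by_cases hfin : q % 8 = 5 ∧ Odd (padicValInt q m)
  · exact ⟨q, hq, hfin.1, hqx, hqy, hfin.2⟩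
  have hq0 : (q : ℤ) ≠ 0 := by exact_mod_cast hq.ne_zero
  obtain ⟨x1, rfl⟩ := hqx
  obtain ⟨y1, rfl⟩ := hqy
  have hqqm : (q : ℤ) ^ 2 ∣ m := by
    rcases hq8 with hq3 | hq5
    · obtain ⟨w1, rfl⟩ := hqw
      obtain ⟨m1, rfl⟩ := hqm
      have h1 : w1 ^ 2 + m1 ^ 2 = (q : ℤ) * ((q : ℤ) * (x1 ^ 4 + y1 ^ 4)) := by
        have : (q : ℤ) ^ 2 * (w1 ^ 2 + m1 ^ 2) =
            (q : ℤ) ^ 2 * ((q : ℤ) * ((q : ℤ) * (x1 ^ 4 + y1 ^ 4))) := by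
          linear_combination -h
        exact mul_left_cancel₀ (pow_ne_zero 2 hq0) this
      obtain ⟨-, h2⟩ := hG q hq (by omega) w1 m1 ⟨_, h1⟩
      obtain ⟨m2, rfl⟩ := h2
      exact ⟨m2, by ring⟩
    · have hnodd : ¬ Odd (padicValInt q m) := fun hc => hfin ⟨hq5, hc⟩
      rw [padicValInt_dvd_iff]
      right
      rw [Nat.not_odd_iff_even] at hnodd
      have h1 : 1 ≤ padicValInt q m := by
        have := (padicValInt_dvd_iff (p := q) 1 m).mp (by simpa using hqm)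
        rcases this with h0 | h1
        · exact absurd h0 hm0
        · exact h1
      rcases hnodd with ⟨a, ha⟩
      omega
  obtain ⟨m1, rfl⟩ := hqqm
  have hqqw : (q : ℤ) ^ 2 ∣ w := by
    have : ((q : ℤ) ^ 2) ^ 2 ∣ w ^ 2 := ⟨x1 ^ 4 + y1 ^ 4 - m1 ^ 2, by linear_combination -h⟩
    exact (Int.pow_dvd_pow_iff (by norm_num)).mp this
  obtain ⟨w1, rfl⟩ := hqqw
  have h1 : x1 ^ 4 + y1 ^ 4 - w1 ^ 2 = m1 ^ 2 := by
    have : (q : ℤ) ^ 4 * (x1 ^ 4 + y1 ^ 4 - w1 ^ 2) = (q : ℤ) ^ 4 * m1 ^ 2 := by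
      linear_combination h
    exact mul_left_cancel₀ (pow_ne_zero 4 hq0) this
  have hm1 : m1 ≠ 0 := by rintro rfl; simp at hm0
  obtain ⟨t, ht⟩ : ∃ t : ℤ, (q : ℤ) ^ 2 = 8 * t + 1 := by
    have := T_sq8 (q : ℤ) (by omega)
    exact ⟨(q : ℤ) ^ 2 / 8, by omega⟩
  have hm8 : m1 % 8 = 3 ∨ m1 % 8 = 5 := by
    rw [ht] at hm
    have : (8 * t + 1) * m1 = 8 * (t * m1) + m1 := by ring
    rw [this] at hm
    omega
  have hlt : m1.natAbs < n := by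
    rw [← hn, Int.natAbs_mul]
    have h4 : 2 ≤ ((q : ℤ) ^ 2).natAbs := by
      rw [Int.natAbs_pow, Int.natAbs_natCast]
      nlinarith [hq.two_le]
    have h5 : 0 < m1.natAbs := Int.natAbs_pos.mpr hm1
    nlinarith
  obtain ⟨l, hl, hl5, hlx, hly, hlo⟩ := ih _ hlt m1 rfl x1 y1 w1 h1 hm8
  refine ⟨l, hl, hl5, Dvd.dvd.mul_left hlx _, Dvd.dvd.mul_left hly _, ?_⟩
  have : Fact l.Prime := ⟨hl⟩
  rw [padicValInt.mul (pow_ne_zero 2 hq0) hm1, pow_two, padicValInt.mul hq0 hq0]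
  rcases hlo with ⟨a, ha⟩
  exact ⟨padicValInt l (q : ℤ) + a, by omega⟩

end Pool.Agent.Work.MP_4dcfa0_pr
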