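import Pool.Agent.Work.MP_4dcfa0_pr.Interface

set_option autoImplicit false

namespace Pool.Agent.Work.MP_4dcfa0_pr

namespace Vaux

lemma mul_ok (a b : ℕ) (ha : a % 8 = 1 ∨ a % 8 = 7) (hb : b % 8 = 1 ∨ b % 8 = 7) :
    (a * b) % 8 = 1 ∨ (a * b) % 8 = 7 := by
  rw [Nat.mul_mod]
  rcases ha with h | h <;> rcases hb with h' | h' <;> rw [h, h'] <;> decide

lemma pow_ok (a v : ℕ) (ha : a % 8 = 1 ∨ a % 8 = 7) : (a ^ v) % 8 = 1 ∨ (a ^ v) % 8 = 7 := by
  induction v with
  | zero => simp
  | succ v ih => rw [pow_succ]; exact mul_ok _ _ ih ha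

lemma sq_ok (a : ℕ) (ha : a % 8 = 3 ∨ a % 8 = 5) : (a * a) % 8 = 1 ∨ (a * a) % 8 = 7 := by
  rw [Nat.mul_mod]
  rcases ha with h | h <;> rw [h] <;> decide

end Vaux

theorem p_V : S_V := by
  intro z hz
  by_contra hcon
  push Not at hcon
  have hz0 : z ≠ 0 := by omega
  have key : z % 8 = 1 ∨ z % 8 = 7 := by
    rw [← Nat.factorization_prod_pow_eq_self hz0]
    unfold Finsupp.prod
    refine Finset.prod_induction (fun p => p ^ z.factorization p)
      (fun m => m % 8 = 1 ∨ m % 8 = 7) Vaux.mul_ok (by norm_num) (fun p hp => ?_)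
    have hp1 : p ∈ z.primeFactors := by simpa using hp
    have hpp : p.Prime := Nat.prime_of_mem_primeFactors hp1
    have hpd : p ∣ z := Nat.dvd_of_mem_primeFactors hp1
    have hodd : p % 2 = 1 := by
      rcases Nat.Prime.eq_two_or_odd hpp with h | h
      · rw [h] at hpd; omega
      · exact h
    by_cases h8 : p % 8 = 3 ∨ p % 8 = 5
    · have hev : Even (padicValNat p z) := by
        have := hcon p hpp h8
        rwa [Nat.not_odd_iff_even] at this
      have hfac : z.factorization p = padicValNat p z := Nat.factorization_def z hpp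
      obtain ⟨k, hk⟩ := hev
      show (p ^ z.factorization p) % 8 = 1 ∨ (p ^ z.factorization p) % 8 = 7
      rw [hfac, hk, ← two_mul, pow_mul, pow_two]
      exact Vaux.pow_ok _ _ (Vaux.sq_ok p h8)
    · exact Vaux.pow_ok _ _ (by omega)
  omega

end Pool.Agent.Work.MP_4dcfa0_pr
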