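import Mathlib

/-!
# MP_4dcfa0_nt: `x ^ 4 + y ^ 4 - w ^ 2 = m ^ 2`, `m` a prime (and some composite `m`): interface
-/

set_option autoImplicit false

namespace Pool.Agent.Work.MP_4dcfa0_pr

/-- V: an odd number `≡ ± 3 mod 8` is divisible to an odd power by a prime `≡ ± 3 mod 8`. -/
def S_V : Prop := ∀ z : ℕ, (z % 8 = 3 ∨ z % 8 = 5) →
  ∃ q : ℕ, q.Prime ∧ (q % 8 = 3 ∨ q % 8 = 5) ∧ Odd (padicValNat q z)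

/-- D: `2` is not a square modulo `q ≡ ± 3 mod 8`. -/
def S_D : Prop := ∀ q : ℕ, q.Prime → (q % 8 = 3 ∨ q % 8 = 5) → ∀ w t : ℤ,
  (q : ℤ) ∣ w ^ 2 - 2 * t ^ 2 → (q : ℤ) ∣ w ∧ (q : ℤ) ∣ t

/-- E: even valuations. -/
def S_E : Prop := ∀ q : ℕ, q.Prime → (q % 8 = 3 ∨ q % 8 = 5) → ∀ w t : ℤ,
  w ^ 2 - 2 * t ^ 2 ≠ 0 → Even (padicValInt q (w ^ 2 - 2 * t ^ 2))

/-- G: `-1` is not a square modulo `q ≡ 3 mod 4`. -/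
def S_G : Prop := ∀ q : ℕ, q.Prime → q % 4 = 3 → ∀ w t : ℤ,
  (q : ℤ) ∣ w ^ 2 + t ^ 2 → (q : ℤ) ∣ w ∧ (q : ℤ) ∣ t

/-- T: solutions for `m ≡ ± 3 mod 8`. -/
def S_T : Prop := ∀ m x y w : ℤ, x ^ 4 + y ^ 4 - w ^ 2 = m ^ 2 → (m % 8 = 3 ∨ m % 8 = 5) →
  ∃ l : ℕ, l.Prime ∧ l % 8 = 5 ∧ (l : ℤ) ∣ x ∧ (l : ℤ) ∣ y ∧ Odd (padicValInt l m)

/-- TH: Thue's lemma. -/
def S_TH : Prop := ∀ (p a : ℕ) (z : ℤ), 0 < p → 0 < a →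
  ∃ x y : ℤ, (x ≠ 0 ∨ y ≠ 0) ∧ (p : ℤ) ∣ x - z * y ∧ x ^ 2 ≤ a * p ∧ a * y ^ 2 ≤ p

/-- Q30: `30` is a square modulo `p`. -/
def S_Q30 : Prop := ∀ p : ℕ, p.Prime → ((p % 8 = 1 ∧ p % 3 = 1) ∨ (p % 8 = 7 ∧ p % 3 = 2)) →
  (p % 5 = 1 ∨ p % 5 = 4) → ∃ z : ℤ, (p : ℤ) ∣ z ^ 2 - 30

/-- Q42: `42` is a square modulo `p`. -/
def S_Q42 : Prop := ∀ p : ℕ, p.Prime →
  ((p % 8 = 1 ∧ p % 3 = 2 ∧ (p % 7 = 3 ∨ p % 7 = 5 ∨ p % 7 = 6)) ∨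
    (p % 8 = 7 ∧ p % 3 = 1 ∧ (p % 7 = 1 ∨ p % 7 = 2 ∨ p % 7 = 4))) →
  ∃ z : ℤ, (p : ℤ) ∣ z ^ 2 - 42

/-- R1. -/
def S_R1 : Prop := ∀ p : ℕ, p.Prime → p % 8 = 1 → p % 3 = 1 → (p % 5 = 1 ∨ p % 5 = 4) →
  ∃ a c : ℤ, (p : ℤ) = a ^ 2 - 120 * c ^ 2

/-- R2. -/
def S_R2 : Prop := ∀ p : ℕ, p.Prime → p % 8 = 7 → p % 3 = 2 → (p % 5 = 1 ∨ p % 5 = 4) →
  ∃ a c : ℤ, -(p : ℤ) = a ^ 2 - 120 * c ^ 2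

/-- R3. -/
def S_R3 : Prop := ∀ p : ℕ, p.Prime → p % 8 = 1 → p % 3 = 2 →
  (p % 7 = 3 ∨ p % 7 = 5 ∨ p % 7 = 6) → ∃ c x : ℤ, (p : ℤ) = 24 * c ^ 2 - 7 * x ^ 2

/-- R4. -/
def S_R4 : Prop := ∀ p : ℕ, p.Prime → p % 8 = 7 → p % 3 = 1 →
  (p % 7 = 1 ∨ p % 7 = 2 ∨ p % 7 = 4) → ∃ c x : ℤ, -(p : ℤ) = 24 * c ^ 2 - 7 * x ^ 2

end Pool.Agent.Work.MP_4dcfa0_pr
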