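import Pool.Agent.Work.MP_4dcfa0_pr.Interface

set_option autoImplicit false

/-! # Common part of R1, R2, R3, R4 -/

namespace Pool.Agent.Work.MP_4dcfa0_pr

namespace RC

lemma sq3 (x : ℤ) : (x % 3 = 0 ∧ x ^ 2 % 3 = 0) ∨ (x % 3 ≠ 0 ∧ x ^ 2 % 3 = 1) := by
  have h : x % 3 = 0 ∨ x % 3 = 1 ∨ x % 3 = 2 := by omega
  rcases h with h | h | h <;> simp [pow_two, Int.mul_emod, h]

lemma sq5 (x : ℤ) : (x % 5 = 0 ∧ x ^ 2 % 5 = 0) ∨ (x % 5 ≠ 0 ∧ (x ^ 2 % 5 = 1 ∨ x ^ 2 % 5 = 4)) := by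
  have h : x % 5 = 0 ∨ x % 5 = 1 ∨ x % 5 = 2 ∨ x % 5 = 3 ∨ x % 5 = 4 := by omega
  rcases h with h | h | h | h | h <;> simp [pow_two, Int.mul_emod, h]

lemma sq7 (x : ℤ) : (x % 7 = 0 ∧ x ^ 2 % 7 = 0) ∨
    (x % 7 ≠ 0 ∧ (x ^ 2 % 7 = 1 ∨ x ^ 2 % 7 = 2 ∨ x ^ 2 % 7 = 4)) := by
  have h : x % 7 = 0 ∨ x % 7 = 1 ∨ x % 7 = 2 ∨ x % 7 = 3 ∨ x % 7 = 4 ∨ x % 7 = 5 ∨ x % 7 = 6 := by
    omega
  rcases h with h | h | h | h | h | h | h <;> simp [pow_two, Int.mul_emod, h]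

lemma sq8 (x : ℤ) : (x % 2 = 1 ∧ x ^ 2 % 8 = 1) ∨ (x % 2 = 0 ∧ (x ^ 2 % 8 = 0 ∨ x ^ 2 % 8 = 4)) := by
  have h : x % 8 = 0 ∨ x % 8 = 1 ∨ x % 8 = 2 ∨ x % 8 = 3 ∨ x % 8 = 4 ∨ x % 8 = 5 ∨ x % 8 = 6 ∨
    x % 8 = 7 := by omega
  have h2 : x % 2 = x % 8 % 2 := by omega
  rcases h with h | h | h | h | h | h | h | h <;> simp [pow_two, Int.mul_emod, h, h2]

lemma evenA (q a b : ℤ) (h8 : q % 8 = 1) (h : q = a ^ 2 - 30 * b ^ 2) :
    ∃ a c : ℤ, q = a ^ 2 - 120 * c ^ 2 := by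
  have ha := sq8 a
  have hb := sq8 b
  have hb2 : b % 2 = 0 := by
    generalize a ^ 2 = A at *
    generalize b ^ 2 = B at *
    omega
  obtain ⟨c, rfl⟩ : ∃ c, b = 2 * c := ⟨b / 2, by omega⟩
  exact ⟨a, c, by rw [h]; ring⟩

lemma evenB (q a b : ℤ) (h8 : q % 8 = 1) (h : q = 6 * b ^ 2 - 7 * a ^ 2) :
    ∃ c x : ℤ, q = 24 * c ^ 2 - 7 * x ^ 2 := by
  have ha := sq8 a
  have hb := sq8 b
  have hb2 : b % 2 = 0 := by
    generalize a ^ 2 = A at *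
    generalize b ^ 2 = B at *
    omega
  obtain ⟨c, rfl⟩ : ∃ c, b = 2 * c := ⟨b / 2, by omega⟩
  exact ⟨c, a, by rw [h]; ring⟩

theorem lemA (q x y k : ℤ) (h8 : q % 8 = 1) (h3 : q % 3 = 1) (h5 : q % 5 = 1 ∨ q % 5 = 4)
    (hk : k ≠ 0) (hk1 : -6 ≤ k) (hk2 : k ≤ 6) (h : x ^ 2 - 30 * y ^ 2 = k * q) :
    ∃ a c : ℤ, q = a ^ 2 - 120 * c ^ 2 := by
  have hx3 := sq3 x
  have hx5 := sq5 x
  have hx8 := sq8 x
  have hy8 := sq8 y
  have hy3 := sq3 y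
  have hc : k = 1 ∨ k = 4 ∨ k = -5 ∨ k = 6 ∨ k = -6 := by
    clear hx8 hy8 hy3
    generalize x ^ 2 = X at *
    generalize y ^ 2 = Y at *
    interval_cases k <;> omega
  rcases hc with rfl | rfl | rfl | rfl | rfl
  · exact evenA q x y h8 (by linarith)
  · have h1 : x % 2 = 0 ∧ y % 2 = 0 := by
      clear hx3 hx5 hy3
      generalize x ^ 2 = X at *
      generalize y ^ 2 = Y at *
      omega
    obtain ⟨a, rfl⟩ : ∃ a, x = 2 * a := ⟨x / 2, by omega⟩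
    obtain ⟨b, rfl⟩ : ∃ b, y = 2 * b := ⟨y / 2, by omega⟩
    exact evenA q a b h8 (by linarith)
  · have h1 : x % 5 = 0 := by
      clear hx3 hx8 hy8 hy3
      generalize x ^ 2 = X at *
      generalize y ^ 2 = Y at *
      omega
    obtain ⟨a, rfl⟩ : ∃ a, x = 5 * a := ⟨x / 5, by omega⟩
    exact evenA q (6 * y - 5 * a) (a - y) h8 (by linarith)
  · have h1 : x % 6 = 0 := by
      clear hx5 hy8 hy3
      generalize x ^ 2 = X at *
      generalize y ^ 2 = Y at *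
      omega
    obtain ⟨a, rfl⟩ : ∃ a, x = 6 * a := ⟨x / 6, by omega⟩
    exact evenA q (6 * a - 5 * y) (y - a) h8 (by linarith)
  · exfalso
    have h1 : x % 6 = 0 := by
      clear hx5 hy8 hy3
      generalize x ^ 2 = X at *
      generalize y ^ 2 = Y at *
      omega
    obtain ⟨a, rfl⟩ : ∃ a, x = 6 * a := ⟨x / 6, by omega⟩
    have h2 : 6 * a ^ 2 - 5 * y ^ 2 = - q := by linarith
    clear h hx3 hx5 hx8 hy8
    generalize a ^ 2 = X at *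
    generalize y ^ 2 = Y at *
    omega

theorem lemB (q x y k : ℤ) (h8 : q % 8 = 1) (h3 : q % 3 = 2)
    (h7 : q % 7 = 3 ∨ q % 7 = 5 ∨ q % 7 = 6)
    (hk : k ≠ 0) (hk1 : -7 ≤ k) (hk2 : k ≤ 7) (h : x ^ 2 - 42 * y ^ 2 = k * q) :
    ∃ c x : ℤ, q = 24 * c ^ 2 - 7 * x ^ 2 := by
  have hx3 := sq3 x
  have hx7 := sq7 x
  have hx8 := sq8 x
  have hy8 := sq8 y
  have hy3 := sq3 y
  have hc : k = -7 ∨ k = -4 ∨ k = -1 ∨ k = 3 ∨ k = 5 ∨ k = 6 ∨ k = 7 := by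
    clear hx8 hy8 hy3
    generalize x ^ 2 = X at *
    generalize y ^ 2 = Y at *
    interval_cases k <;> omega
  rcases hc with rfl | rfl | rfl | rfl | rfl | rfl | rfl
  · have h1 : x % 7 = 0 := by
      clear hx3 hx8 hy8 hy3
      generalize x ^ 2 = X at *
      generalize y ^ 2 = Y at *
      omega
    obtain ⟨a, rfl⟩ : ∃ a, x = 7 * a := ⟨x / 7, by omega⟩
    exact evenB q a y h8 (by linarith)
  · have h1 : x % 2 = 0 ∧ y % 2 = 0 := by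
      clear hx3 hx7 hy3
      generalize x ^ 2 = X at *
      generalize y ^ 2 = Y at *
      omega
    obtain ⟨a, rfl⟩ : ∃ a, x = 2 * a := ⟨x / 2, by omega⟩
    obtain ⟨b, rfl⟩ : ∃ b, y = 2 * b := ⟨y / 2, by omega⟩
    exact evenB q (a + 6 * b) (a + 7 * b) h8 (by linarith)
  · exact evenB q (x + 6 * y) (x + 7 * y) h8 (by linarith)
  · exfalso
    have h1 : x % 3 = 0 := by
      clear hx7 hx8 hy8 hy3
      generalize x ^ 2 = X at *
      generalize y ^ 2 = Y at *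
      omega
    obtain ⟨a, rfl⟩ : ∃ a, x = 3 * a := ⟨x / 3, by omega⟩
    have h2 : 3 * a ^ 2 - 14 * y ^ 2 = q := by linarith
    have ha8 := sq8 a
    clear h hx3 hx7 hx8 hy3
    generalize a ^ 2 = X at *
    generalize y ^ 2 = Y at *
    omega
  · exfalso
    clear hx3 hx7 hy3
    generalize x ^ 2 = X at *
    generalize y ^ 2 = Y at *
    omega
  · have h1 : x % 6 = 0 := by
      clear hx7 hy8 hy3
      generalize x ^ 2 = X at *
      generalize y ^ 2 = Y at *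
      omega
    obtain ⟨a, rfl⟩ : ∃ a, x = 6 * a := ⟨x / 6, by omega⟩
    exact evenB q y a h8 (by linarith)
  · exfalso
    have h1 : x % 7 = 0 := by
      clear hx3 hx8 hy8 hy3
      generalize x ^ 2 = X at *
      generalize y ^ 2 = Y at *
      omega
    obtain ⟨a, rfl⟩ : ∃ a, x = 7 * a := ⟨x / 7, by omega⟩
    have h2 : 7 * a ^ 2 - 6 * y ^ 2 = q := by linarith
    have ha3 := sq3 a
    clear h hx3 hx7 hx8 hy8
    generalize a ^ 2 = X at *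
    generalize y ^ 2 = Y at *
    omega

lemma ns (d x y : ℤ) (hd : ∀ n : ℤ, d ≠ n * n) (h : x ^ 2 - d * y ^ 2 = 0) : x = 0 ∧ y = 0 := by
  have h1 := (Zsqrtd.norm_eq_zero (d := d) hd ⟨x, y⟩).1 (by
    rw [Zsqrtd.norm_def]
    linarith)
  rw [Zsqrtd.ext_iff] at h1
  exact h1

/-- From Thue's lemma. -/
theorem thue (hT : S_TH) (p : ℕ) (hp : p.Prime) (a : ℕ) (ha : 0 < a) (b z d : ℤ)
    (hd : ∀ n : ℤ, d ≠ n * n) (hab : d = a * b) (hb : 0 ≤ b)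
    (hz : (p : ℤ) ∣ z ^ 2 - d) :
    ∃ x y k : ℤ, k ≠ 0 ∧ -b ≤ k ∧ k ≤ a ∧ x ^ 2 - d * y ^ 2 = k * p := by
  obtain ⟨x, y, h0, h1, h2, h3⟩ := hT p a z hp.pos ha
  have hp0 : (0 : ℤ) < p := by exact_mod_cast hp.pos
  obtain ⟨u, hu⟩ := h1
  obtain ⟨v, hv⟩ := hz
  have hk : x ^ 2 - d * y ^ 2 = (u * (x + z * y) + v * y ^ 2) * p := by
    have e1 : x = z * y + p * u := by linarith
    have e2 : d = z ^ 2 - p * v := by linarith
    rw [e2]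
    linear_combination (x + z * y) * hu
  refine ⟨x, y, u * (x + z * y) + v * y ^ 2, ?_, ?_, ?_, hk⟩
  · intro hk0
    rw [hk0, zero_mul] at hk
    have := ns d x y hd hk
    tauto
  · by_contra hlt
    push Not at hlt
    have h4 : (u * (x + z * y) + v * y ^ 2) * p < -b * p := by
      exact mul_lt_mul_of_pos_right hlt hp0
    have h5 : d * y ^ 2 ≤ b * p := by
      rw [hab]
      have := mul_le_mul_of_nonneg_left h3 hb
      linarith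
    nlinarith [sq_nonneg x]
  · by_contra hlt
    push Not at hlt
    have h4 : (a : ℤ) * p < (u * (x + z * y) + v * y ^ 2) * p := by
      exact mul_lt_mul_of_pos_right hlt hp0
    have h5 : 0 ≤ d * y ^ 2 := by
      rw [hab]
      positivity
    linarith

end RC

end Pool.Agent.Work.MP_4dcfa0_pr
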